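import Pool.Agent.Helper57.SJ.Stmts
import Pool.Agent.Helper47.Q2.TL

/-!
# Row SUP: large values of a sum over primes in intervals
-/

set_option autoImplicit false

namespace Pool.Agent.Helper88.SJ

open MeasureTheory Set Filter Topology
open Pool.Agent.Helper57.SJ
open Pool.Agent.Helper57.QZ (TL47.E TL47.mv TL47.E_cont)

theorem E_deriv (n : ℕ) (t : ℝ) : HasDerivAt (TL47.E n)
    (-((Real.log n : ℂ) * Complex.I) * TL47.E n t) t := by
  unfold TL47.E
  have h1 : HasDerivAt (fun t : ℝ => ((t * Real.log n : ℝ) : ℂ)) ((Real.log n : ℝ) : ℂ) t := by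
    have h0 : HasDerivAt (fun t : ℝ => t * Real.log n) (Real.log n) t := by
      simpa using (hasDerivAt_id t).mul_const (Real.log n)
    exact h0.ofReal_comp
  have h2 : HasDerivAt (fun t : ℝ => -(((t * Real.log n : ℝ) : ℂ) * Complex.I))
      (-((Real.log n : ℂ) * Complex.I)) t := (h1.mul_const Complex.I).neg
  have h3 := h2.cexp
  rw [mul_comm] at h3
  exact h3

/-- the polynomial -/
noncomputable def PL (P : Finset ℕ) (a : ℕ → ℂ) (t : ℝ) : ℂ := ∑ p ∈ P, a p * TL47.E p t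

theorem PL_cont (P : Finset ℕ) (a : ℕ → ℂ) : Continuous (PL P a) := by
  unfold PL
  exact continuous_finsetSum _ (fun p _ => continuous_const.mul (TL47.E_cont p))

theorem PL_deriv (P : Finset ℕ) (a : ℕ → ℂ) (t : ℝ) : HasDerivAt (PL P a)
    (PL P (fun p => -((Real.log p : ℂ) * Complex.I) * a p) t) t := by
  unfold PL
  have h : HasDerivAt (fun t => ∑ p ∈ P, a p * TL47.E p t)
      (∑ p ∈ P, a p * (-((Real.log p : ℂ) * Complex.I) * TL47.E p t)) t :=
    HasDerivAt.fun_sum (fun p _ => (E_deriv p t).const_mul (a p))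
  convert h using 1
  apply Finset.sum_congr rfl
  intro p _
  ring

theorem log_nn (p : ℕ) : 0 ≤ Real.log (p : ℝ) := Real.log_natCast_nonneg p

theorem norm_a' (a : ℕ → ℂ) (p : ℕ) :
    ‖-((Real.log p : ℂ) * Complex.I) * a p‖ = ‖a p‖ * Real.log p := by
  rw [norm_mul, norm_neg, norm_mul, Complex.norm_I, mul_one, Complex.norm_real, Real.norm_eq_abs,
    abs_of_nonneg (log_nn p), mul_comm]

theorem mv_bound (P : Finset ℕ) (a b : ℕ → ℂ) (M S B T : ℝ) (k : ℕ)
    (hP : ∀ p ∈ P, p.Prime) (hM : ∀ p ∈ P, (p : ℝ) ≤ M) (hM1 : 1 ≤ M) (hT : 0 < T)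
    (hS : ∑ p ∈ P, (‖a p‖ * (1 + Real.log p)) ^ 2 ≤ S)
    (hB : ∑ p ∈ P, ‖a p‖ * (1 + Real.log p) ≤ B)
    (hb : ∀ p ∈ P, ‖b p‖ ≤ ‖a p‖ * (1 + Real.log p)) :
    ∫ t in T..(2 * T), ‖PL P b t‖ ^ (2 * k) ≤
      T * (k.factorial * S ^ k) + 2 * M ^ k * B ^ (2 * k) := by
  refine (TL47.mv P hP M hM hM1 b k T hT).trans ?_
  have h1 : ∑ p ∈ P, ‖b p‖ ^ 2 ≤ S := by
    refine le_trans (Finset.sum_le_sum fun p hp => ?_) hS
    exact pow_le_pow_left₀ (norm_nonneg _) (hb p hp) 2
  have h2 : ∑ p ∈ P, ‖b p‖ ≤ B := le_trans (Finset.sum_le_sum fun p hp => hb p hp) hB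
  have h3 : (∑ p ∈ P, ‖b p‖ ^ 2) ^ k ≤ S ^ k :=
    pow_le_pow_left₀ (Finset.sum_nonneg fun p _ => by positivity) h1 k
  have h4 : (∑ p ∈ P, ‖b p‖) ^ (2 * k) ≤ B ^ (2 * k) :=
    pow_le_pow_left₀ (Finset.sum_nonneg fun p _ => norm_nonneg _) h2 (2 * k)
  have h5 : (0 : ℝ) ≤ k.factorial := by positivity
  have h6 : 0 ≤ 2 * M ^ k := by positivity
  gcongr

theorem st_SUP (h1 : ST_MK2) (h2 : ST_SB) : ST_SUP := by
  intro P a M S B η H T k hP hM hM1 hk hη hH hHT hS hB
  have hT : 0 < T := by linarith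
  set a' : ℕ → ℂ := fun p => -((Real.log p : ℂ) * Complex.I) * a p with ha'
  set F : ℝ → ℝ := fun t => (2 * k + 1) * (‖PL P a t‖ ^ (2 * k) + ‖PL P a' t‖ ^ (2 * k)) with hF
  have hFc : Continuous F := by
    rw [hF]
    exact continuous_const.mul ((((PL_cont P a).norm).pow _).add (((PL_cont P a').norm).pow _))
  have hF0 : ∀ t, 0 ≤ F t := by
    intro t
    rw [hF]
    positivity
  have hc : 0 < η ^ (2 * k) := pow_pos hη _
  obtain ⟨E, hE, hv, hu⟩ := h1 F H (η ^ (2 * k)) T hH hc hHT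
    (hFc.continuousOn.integrableOn_compact isCompact_Icc) hF0
  refine ⟨E, hE, ?_, ?_⟩
  · refine hv.trans ?_
    have hI : ∫ t in T..(2 * T), F t ≤
        (4 * k + 2) * (T * (k.factorial * S ^ k) + 2 * M ^ k * B ^ (2 * k)) := by
      have b1 := mv_bound P a a M S B T k hP hM hM1 hT hS hB (fun p _ => by
        have := mul_nonneg (norm_nonneg (a p)) (log_nn p)
        nlinarith)
      have b2 := mv_bound P a a' M S B T k hP hM hM1 hT hS hB (fun p _ => by
        rw [ha']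
        show ‖-((Real.log p : ℂ) * Complex.I) * a p‖ ≤ _
        rw [norm_a']
        have := norm_nonneg (a p)
        nlinarith)
      have e : ∫ t in T..(2 * T), F t = (2 * k + 1) * ((∫ t in T..(2 * T), ‖PL P a t‖ ^ (2 * k)) +
          ∫ t in T..(2 * T), ‖PL P a' t‖ ^ (2 * k)) := by
        rw [hF, intervalIntegral.integral_const_mul, intervalIntegral.integral_add]
        · exact (((PL_cont P a).norm).pow _).intervalIntegrable _ _
        · exact (((PL_cont P a').norm).pow _).intervalIntegrable _ _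
      rw [e]
      have hk0 : (0 : ℝ) ≤ 2 * k + 1 := by positivity
      calc (2 * (k : ℝ) + 1) * ((∫ t in T..(2 * T), ‖PL P a t‖ ^ (2 * k)) +
          ∫ t in T..(2 * T), ‖PL P a' t‖ ^ (2 * k))
          ≤ (2 * k + 1) * ((T * (k.factorial * S ^ k) + 2 * M ^ k * B ^ (2 * k)) +
            (T * (k.factorial * S ^ k) + 2 * M ^ k * B ^ (2 * k))) :=
            mul_le_mul_of_nonneg_left (add_le_add b1 b2) hk0
        _ = _ := by ring
    have hH2 : 0 ≤ H + 2 := by linarith
    apply mul_le_mul_of_nonneg_left _ hH2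
    have := div_le_div_of_nonneg_right hI hc.le
    linarith
  · intro u hu' hE' t ht
    obtain ⟨-, -, hle⟩ := hu u hu' hE'
    have hs := h2 (PL P a) (PL P a') k hk (PL_deriv P a) (PL_cont P a') t
    have hs' : ‖PL P a t‖ ^ (2 * k) ≤ ∫ s in t..(t + 1), F s := by
      refine hs.trans (le_of_eq ?_)
      rw [hF, intervalIntegral.integral_const_mul]
    have hmono : ∫ s in t..(t + 1), F s ≤ ∫ s in (u - 1)..(u + H + 1), F s := by
      apply intervalIntegral.integral_mono_interval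
      · linarith [ht.1]
      · linarith
      · linarith [ht.2]
      · exact Filter.Eventually.of_forall fun s => hF0 s
      · exact hFc.intervalIntegrable _ _
    have hfin : ‖PL P a t‖ ^ (2 * k) ≤ η ^ (2 * k) := hs'.trans (hmono.trans hle)
    have := (pow_le_pow_iff_left₀ (norm_nonneg _) hη.le (by omega)).1 hfin
    exact this

end Pool.Agent.Helper88.SJ
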